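import Pool.Agent.R723.RainbowCount

/-!
# MP_8b2dc5_pr: the number of rainbow trees is not stochastically monotone in the number of colours

We answer Q1 negatively.  The graph is the incidence graph of the points `(a, b)` and the
non-vertical lines `y = m x + s` of the affine plane over `ZMod 101` (a bipartite 101-regular
graph with `101 ^ 3` edges), the order of the trees is `k = 5`, and the numbers of colours are
`c' = 101 ^ 2 = 10201` and `c = 10202`.

Give the edge joining `(a, m a + s)` and the line `(m, s)` the class `(a, m)`.  Two edges lie in a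
common tree with five vertices exactly when their classes differ.  Hence all trees of order five
are rainbow if and only if different classes get disjoint sets of colours: this is a proper
colouring of the complete multipartite graph with `101 ^ 2` parts of size `101`, and for this
graph `10201` colours are better than `10202` colours.
-/

namespace Pool.Agent.Results.MP_8b2dc5_pr.Disproof

open Pool.Agent.R723.RB

lemma numeric : (10202 : ℝ) * (10201 * 2 ^ 101) < (12751 / 10201 : ℝ) ^ 404 := by
  have h1 : (5000000000 : ℝ) ≤ (12751 / 10201 : ℝ) ^ 101 := by norm_num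
  have h2 : (10202 : ℝ) * (10201 * 2 ^ 101) < (5000000000 : ℝ) ^ 4 := by norm_num
  have h3 : (12751 / 10201 : ℝ) ^ 404 = ((12751 / 10201 : ℝ) ^ 101) ^ 4 := by rw [← pow_mul]
  rw [h3]
  exact lt_of_lt_of_le h2 (pow_le_pow_left₀ (by norm_num) h1 4)

lemma growth (M : ℕ) (hM : 2550 * 404 ≤ M) :
    (10202 : ℝ) * (10201 * 2 ^ 101) * 10201 ^ M < 10202 ^ M := by
  have h1 : (12751 / 10201 : ℝ) ≤ (10202 / 10201) ^ 2550 := by
    have := one_add_mul_le_pow (a := (1 / 10201 : ℝ)) (by norm_num) 2550
    norm_num at this ⊢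
    exact this
  have h2 : (12751 / 10201 : ℝ) ^ 404 ≤ (10202 / 10201) ^ M := by
    calc (12751 / 10201 : ℝ) ^ 404 ≤ ((10202 / 10201) ^ 2550) ^ 404 :=
          pow_le_pow_left₀ (by norm_num) h1 404
      _ = (10202 / 10201) ^ (2550 * 404) := by rw [pow_mul]
      _ ≤ (10202 / 10201) ^ M := pow_le_pow_right₀ (by norm_num) hM
  have h3 := lt_of_lt_of_le numeric h2
  rw [div_pow, lt_div_iff₀ (by positivity)] at h3
  exact h3

theorem result : ∃ (V : Type) (_ : Fintype V) (G : SimpleGraph V) (c : ℕ) (t : ℝ),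
    prob G (c + 1) 5 t < prob G c 5 t := by
  have : Fact (Nat.Prime 101) := ⟨by norm_num⟩
  have hC : Fintype.card (ZMod 101 × ZMod 101) = 10201 := by
    rw [Fintype.card_prod, ZMod.card]
  refine ⟨VV 101, inferInstance, Gr 101, 10201, ((t0 101 : ℕ) : ℝ), ?_⟩
  unfold prob
  rw [card_good (by norm_num), card_good (by norm_num), card_all, card_all]
  have hup := good_upper (C := ZMod 101 × ZMod 101) (F := ZMod 101) hC
  have hlo := good_lower (C := ZMod 101 × ZMod 101) (F := ZMod 101) hC
  rw [ZMod.card] at hup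
  generalize hA : Nat.card {ψ : (ZMod 101 × ZMod 101) × ZMod 101 → Fin (10201 + 1) // Good ψ} = A
    at hup ⊢
  generalize hB : Nat.card {ψ : (ZMod 101 × ZMod 101) × ZMod 101 → Fin 10201 // Good ψ} = B
    at hlo ⊢
  have hM : 2550 * 404 ≤ 101 ^ 2 * 101 := by norm_num
  generalize (101 ^ 2 * 101 : ℕ) = M at hM ⊢
  have hg := growth M hM
  have hup' : (A : ℝ) ≤ (Nat.factorial 10201 : ℝ) * ((10202 : ℝ) * (10201 * 2 ^ 101)) := by
    have h1 : A ≤ Nat.factorial 10201 * (10202 * (10201 * 2 ^ 101)) := by
      refine hup.trans (le_of_eq ?_)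
      rw [Nat.factorial_succ]
      ring
    exact_mod_cast h1
  have hlo' : (Nat.factorial 10201 : ℝ) ≤ (B : ℝ) := by exact_mod_cast hlo
  have hf : (0 : ℝ) < (Nat.factorial 10201 : ℝ) := by
    exact_mod_cast Nat.factorial_pos _
  generalize (Nat.factorial 10201 : ℝ) = f at hup' hlo' hf
  have e1 : (((10201 + 1 : ℕ) ^ M : ℕ) : ℝ) = (10202 : ℝ) ^ M := by push_cast; norm_num
  have e2 : (((10201 : ℕ) ^ M : ℕ) : ℝ) = (10201 : ℝ) ^ M := by push_cast; rfl
  rw [e1, e2, div_lt_div_iff₀ (by positivity) (by positivity)]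
  calc (A : ℝ) * 10201 ^ M ≤ (f * ((10202 : ℝ) * (10201 * 2 ^ 101))) * 10201 ^ M := by
        gcongr
    _ = f * ((10202 : ℝ) * (10201 * 2 ^ 101) * 10201 ^ M) := by ring
    _ < f * 10202 ^ M := by gcongr
    _ ≤ (B : ℝ) * 10202 ^ M := by gcongr

end Pool.Agent.Results.MP_8b2dc5_pr.Disproof
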